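import Pool.Agent.Helper40_Cplx.Leaves

set_option autoImplicit false

/-!
Counting the complexity sequences.
-/

namespace Pool.Agent.Helper40_Cplx

open Finset

lemma card_small_subsets {α : Type*} [DecidableEq α] (X : Finset α) (E : ℕ) :
    (X.powerset.filter fun T => T.card ≤ E).card ≤ (X.card + 1) ^ E := by
  induction E with
  | zero =>
    have : (X.powerset.filter fun T => T.card ≤ 0) ⊆ {∅} := by
      intro T hT
      rw [Finset.mem_filter] at hT
      rw [Finset.mem_singleton, ← Finset.card_eq_zero]
      omega
    simpa using Finset.card_le_card this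
  | succ E ih =>
    set 𝒮 := X.powerset.filter fun T => T.card ≤ E with h𝒮
    have h1 : (X.powerset.filter fun T => T.card ≤ E + 1) ⊆
        ((Finset.insertNone X) ×ˢ 𝒮).image
          (fun x : Option α × Finset α => x.1.elim x.2 fun a => insert a x.2) := by
      intro T hT
      rw [Finset.mem_filter, Finset.mem_powerset] at hT
      rw [Finset.mem_image]
      by_cases hE : T.card ≤ E
      · refine ⟨(none, T), ?_, rfl⟩
        rw [Finset.mem_product, h𝒮, Finset.mem_filter, Finset.mem_powerset]
        exact ⟨by simp, hT.1, hE⟩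
      · have hne : T.Nonempty := by
          rw [← Finset.card_pos]
          omega
        obtain ⟨a, ha⟩ := hne
        refine ⟨(some a, T.erase a), ?_, ?_⟩
        · rw [Finset.mem_product, h𝒮, Finset.mem_filter, Finset.mem_powerset]
          refine ⟨by simpa using hT.1 ha, (Finset.erase_subset a T).trans hT.1, ?_⟩
          rw [Finset.card_erase_of_mem ha]
          omega
        · simp [Finset.insert_erase ha]
    refine le_trans (Finset.card_le_card h1) (le_trans Finset.card_image_le ?_)
    rw [Finset.card_product, Finset.card_insertNone, pow_succ, mul_comm]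
    exact Nat.mul_le_mul_right _ ih

variable (w : ℕ → Fin 2) (n : ℕ)

/-- The changes beyond level `J`, with the new values. -/
def Gam (J : ℕ) : Finset (ℕ × ℕ) :=
  ((Finset.Ico J n).filter fun j => (B w n (j + 1)).card ≠ (B w n j).card).image
    fun j => (j, (B w n (j + 1)).card)

lemma B_card_le (j : ℕ) (hj : j ≤ n) : (B w n j).card ≤ n := by
  rcases Nat.lt_or_ge j n with h | h
  · exact le_trans (Finset.single_le_sum (f := fun j => (B w n j).card)
      (fun _ _ => Nat.zero_le _) (Finset.mem_range.2 h)) (sum_B_le w n)
  · have : j = n := le_antisymm hj h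
    rw [this, B_last]
    exact Nat.zero_le _

/-- The code. -/
def code (J : ℕ) : ℕ × (Fin (J + 1) → ℕ) × Finset (ℕ × ℕ) :=
  (kap w n, (fun i => (B w n i).card), Gam w n J)

lemma code_B {w w' : ℕ → Fin 2} {J : ℕ} (h : code w n J = code w' n J) (j : ℕ)
    (hj : j ≤ n) : (B w n j).card = (B w' n j).card := by
  have h2 : (fun i : Fin (J + 1) => (B w n i).card) = fun i : Fin (J + 1) => (B w' n i).card :=
    congrArg (fun x => x.2.1) h
  have h3 : Gam w n J = Gam w' n J := congrArg (fun x => x.2.2) h
  induction j with
  | zero => exact congrFun h2 ⟨0, by omega⟩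
  | succ j ih =>
    have ih := ih (by omega)
    rcases Nat.lt_or_ge j J with hjJ | hjJ
    · exact congrFun h2 ⟨j + 1, by omega⟩
    · -- a helper in both directions
      have key : ∀ x y : ℕ → Fin 2, Gam x n J = Gam y n J →
          (B x n (j + 1)).card ≠ (B x n j).card → (B x n (j + 1)).card = (B y n (j + 1)).card := by
        intro x y hxy hne
        have hmem : (j, (B x n (j + 1)).card) ∈ Gam x n J := by
          rw [Gam, Finset.mem_image]
          refine ⟨j, ?_, rfl⟩
          rw [Finset.mem_filter, Finset.mem_Ico]
          exact ⟨⟨hjJ, by omega⟩, hne⟩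
        rw [hxy, Gam, Finset.mem_image] at hmem
        obtain ⟨k, _, hk⟩ := hmem
        have e1 := congrArg Prod.fst hk
        have e2 := congrArg Prod.snd hk
        simp only at e1 e2
        subst e1
        exact e2.symm
      by_cases hne : (B w n (j + 1)).card ≠ (B w n j).card
      · exact key w w' h3 hne
      · by_cases hne' : (B w' n (j + 1)).card ≠ (B w' n j).card
        · exact (key w' w h3.symm hne').symm
        · push Not at hne hne'
          rw [hne, hne', ih]

lemma code_F {w w' : ℕ → Fin 2} {J : ℕ} (h : code w n J = code w' n J) (k : ℕ)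
    (hk : k ≤ n) : (F w n k).card = (F w' n k).card := by
  have h1 := F_sum w n k hk
  have h2 := F_sum w' n k hk
  have h3 : kap w n = kap w' n := congrArg (fun x => x.1) h
  have h4 : ∑ j ∈ Finset.range k, e w n j = ∑ j ∈ Finset.range k, e w' n j := by
    refine Finset.sum_congr rfl fun j hj => ?_
    rw [Finset.mem_range] at hj
    rw [e_eq w n j (by omega), e_eq w' n j (by omega), h3]
  have h5 : ∑ j ∈ Finset.range k, (B w n j).card = ∑ j ∈ Finset.range k, (B w' n j).card := by
    refine Finset.sum_congr rfl fun j hj => ?_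
    rw [Finset.mem_range] at hj
    exact code_B n h j (by omega)
  omega

/-- The bound for the number of changes. -/
lemma Gam_card {h : ℕ} (hh : 1 ≤ h) (hn : 2 * h ≤ n) :
    (Gam w n (2 * h)).card ≤ 2 * ((n / h + 1) * (n / (h / 8 + 1) + 1)) := by
  refine le_trans Finset.card_image_le (le_trans (changes_le w n hn) ?_)
  apply Nat.mul_le_mul_left
  -- a level with few right special factors
  obtain ⟨j, hj1, hj2, hj3⟩ : ∃ j, h ≤ j ∧ j < 2 * h ∧ (B w n j).card ≤ n / h := by
    by_contra hno
    push Not at hno
    have h1 : ∑ j ∈ Finset.Ico h (2 * h), (n / h + 1) ≤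
        ∑ j ∈ Finset.Ico h (2 * h), (B w n j).card := by
      refine Finset.sum_le_sum fun j hj => ?_
      rw [Finset.mem_Ico] at hj
      exact hno j hj.1 hj.2
    rw [Finset.sum_const, Nat.card_Ico, smul_eq_mul] at h1
    have h2 : ∑ j ∈ Finset.Ico h (2 * h), (B w n j).card ≤
        ∑ j ∈ Finset.range n, (B w n j).card := by
      apply Finset.sum_le_sum_of_subset
      intro j hj
      rw [Finset.mem_Ico] at hj
      rw [Finset.mem_range]
      omega
    have h3 := sum_B_le w n
    have h4 : n < (2 * h - h) * (n / h + 1) := by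
      have e1 : 2 * h - h = h := by omega
      rw [e1]
      have := Nat.lt_mul_div_succ n (show 0 < h by omega)
      exact this
    omega
  refine le_trans (leaves_le w n (j := j) (J := 2 * h) (by omega)) ?_
  apply Nat.mul_le_mul
  · omega
  · have : n / (j / 8 + 1) ≤ n / (h / 8 + 1) :=
      Nat.div_le_div_left (by omega) (by omega)
    omega

/-- The set of all codes. -/
def codes (h : ℕ) : Finset (ℕ × (Fin (2 * h + 1) → ℕ) × Finset (ℕ × ℕ)) :=
  Finset.range (n + 1) ×ˢ (Fintype.piFinset fun _ => Finset.range (n + 1)) ×ˢ
    (((Finset.range n ×ˢ Finset.range (n + 1)).powerset).filter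
      fun T => T.card ≤ 2 * ((n / h + 1) * (n / (h / 8 + 1) + 1)))

lemma code_mem {h : ℕ} (hh : 1 ≤ h) (hn : 2 * h ≤ n) : code w n (2 * h) ∈ codes n h := by
  rw [code, codes, Finset.mem_product, Finset.mem_product]
  refine ⟨?_, ?_, ?_⟩
  · rw [Finset.mem_range]
    have := kap_le w n
    simp only
    omega
  · rw [Fintype.mem_piFinset]
    intro i
    rw [Finset.mem_range]
    have := B_card_le w n i (by have := i.2; omega)
    simp only
    omega
  · rw [Finset.mem_filter, Finset.mem_powerset]
    refine ⟨?_, Gam_card w n hh hn⟩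
    intro x hx
    simp only [Gam, Finset.mem_image, Finset.mem_filter, Finset.mem_Ico] at hx
    obtain ⟨j, ⟨⟨h1, h2⟩, _⟩, rfl⟩ := hx
    rw [Finset.mem_product, Finset.mem_range, Finset.mem_range]
    have := B_card_le w n (j + 1) (by omega)
    simp only
    omega

lemma codes_card (h : ℕ) : (codes n h).card ≤
    (n + 1) * ((n + 1) ^ (2 * h + 1) * (n * (n + 1) + 1) ^
      (2 * ((n / h + 1) * (n / (h / 8 + 1) + 1)))) := by
  rw [codes, Finset.card_product, Finset.card_product, Finset.card_range, Fintype.card_piFinset]
  apply Nat.mul_le_mul_left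
  apply Nat.mul_le_mul
  · simp
  · refine le_trans (card_small_subsets _ _) ?_
    rw [Finset.card_product, Finset.card_range, Finset.card_range]

end Pool.Agent.Helper40_Cplx
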