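import Pool.Agent.Helper40_Cplx.Tree

set_option autoImplicit false

/-!
There are few leaves deep in the tree of right special factors.
-/

namespace Pool.Agent.Helper40_Cplx

open Finset

/-- Separated sets are small. -/
lemma card_le_of_spaced {n g : ℕ} (hg : 1 ≤ g) (S : Finset ℕ) (hS : ∀ z ∈ S, z < n)
    (hsp : ∀ z ∈ S, ∀ z' ∈ S, z < z' → z + g ≤ z') : S.card ≤ n / g + 1 := by
  have h1 : S.card ≤ (Finset.range (n / g + 1)).card := by
    apply Finset.card_le_card_of_injOn (fun z => z / g)
    · intro z hz
      have := hS z hz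
      rw [Finset.coe_range, Set.mem_Iio]
      exact Nat.lt_succ_of_le (Nat.div_le_div_right this.le)
    · intro z hz z' hz' h
      have hz := Finset.mem_coe.1 hz
      have hz' := Finset.mem_coe.1 hz'
      simp only at h
      by_contra hne
      rcases Nat.lt_or_gt_of_ne hne with h1 | h1
      · have h2 := hsp z hz z' hz' h1
        have h3 : (z + g) / g ≤ z' / g := Nat.div_le_div_right h2
        rw [Nat.add_div_right _ (by omega)] at h3
        omega
      · have h2 := hsp z' hz' z hz h1
        have h3 : (z' + g) / g ≤ z / g := Nat.div_le_div_right h2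
        rw [Nat.add_div_right _ (by omega)] at h3
        omega
  simpa using h1

variable (w : ℕ → Fin 2) (n : ℕ)

/-- The context of length `j` at `z` has the period `q`. -/
def Per (j z q : ℕ) : Prop := 1 ≤ q ∧ 8 * q ≤ j ∧ ∀ t, t + q < j → w (z - 1 - t) = w (z - 1 - t - q)

open Classical in
/-- Positions with a right special context of length `j` without small period. -/
noncomputable def ZN (j : ℕ) : Finset ℕ :=
  (Finset.Ico j n).filter fun z => ctx w j z ∈ B w n j ∧ ¬ ∃ q, Per w j z q

open Classical in
/-- Positions where a small period of the context of length `j` is broken. -/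
noncomputable def ZP (j : ℕ) : Finset ℕ :=
  (Finset.Ico j n).filter fun z => ∃ q, Per w j z q ∧ w z ≠ w (z - q)

lemma ZP_card (j : ℕ) : (ZP w n j).card ≤ n / (j / 8 + 1) + 1 := by
  classical
  apply card_le_of_spaced (by omega)
  · intro z hz
    rw [ZP, Finset.mem_filter, Finset.mem_Ico] at hz
    exact hz.1.2
  · intro z hz z' hz' hlt
    rw [ZP, Finset.mem_filter, Finset.mem_Ico] at hz hz'
    obtain ⟨⟨h1, _⟩, q, ⟨hq1, hq2, hq⟩, hbr⟩ := hz
    obtain ⟨⟨h1', _⟩, q', ⟨hq1', hq2', hq'⟩, _⟩ := hz'
    by_contra hcon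
    push Not at hcon
    apply hbr
    -- three uses of the periods
    have e1 : w z = w (z - q') := by
      have h2 := hq' (z' - 1 - z) (by omega)
      have e1 : z' - 1 - (z' - 1 - z) = z := by omega
      rw [e1] at h2
      exact h2
    have e2 : w (z - q') = w (z - q' - q) := by
      have h2 := hq (q' - 1) (by omega)
      have e1 : z - 1 - (q' - 1) = z - q' := by omega
      rw [e1] at h2
      exact h2
    have e3 : w (z - q) = w (z - q' - q) := by
      have h2 := hq' (z' - 1 - z + q) (by omega)
      have e1 : z' - 1 - (z' - 1 - z + q) = z - q := by omega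
      have e2 : z' - 1 - (z' - 1 - z + q) - q' = z - q' - q := by omega
      rw [e2, e1] at h2
      exact h2
    rw [e1, e2, e3]

lemma ZN_card (j : ℕ) : (ZN w n j).card ≤ (B w n j).card * (n / (j / 8 + 1) + 1) := by
  classical
  rw [mul_comm]
  apply Finset.card_le_mul_card_image_of_maps_to (f := ctx w j) (t := B w n j)
  · intro z hz
    rw [ZN, Finset.mem_filter] at hz
    exact hz.2.1
  · intro v _
    apply card_le_of_spaced (by omega)
    · intro z hz
      rw [Finset.mem_filter, ZN, Finset.mem_filter, Finset.mem_Ico] at hz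
      exact hz.1.1.2
    · intro z hz z' hz' hlt
      rw [Finset.mem_filter, ZN, Finset.mem_filter, Finset.mem_Ico] at hz hz'
      obtain ⟨⟨⟨h1, _⟩, _, _⟩, hzv⟩ := hz
      obtain ⟨⟨⟨h1', _⟩, _, hno⟩, hzv'⟩ := hz'
      by_contra hcon
      push Not at hcon
      apply hno
      refine ⟨z' - z, by omega, by omega, ?_⟩
      intro t ht
      have h2 : ctx w j z = ctx w j z' := by rw [hzv, hzv']
      rw [ctx_eq_iff] at h2
      have h3 := h2 t (by omega)
      rw [← h3]
      congr 1
      omega

/-- A leaf has an occurrence in one of the two sets. -/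
lemma leaf_pos {i j : ℕ} (hij : j ≤ i) {u : List (Fin 2)} (hu : u ∈ B w n i) :
    ∃ z, i ≤ z ∧ z < n ∧ ctx w i z = u ∧ z ∈ ZN w n j ∪ ZP w n j := by
  classical
  have hB := (mem_B w n).1 hu
  obtain ⟨z0, h1, h2, h3, h4⟩ := hB 0
  have hctx : ∀ z, ctx w i z = u → ctx w j z = u.take j := by
    intro z hz
    rw [← hz, take_ctx w hij]
  by_cases hper : ∃ q, Per w j z0 q
  · obtain ⟨q, hq1, hq2, hq⟩ := hper
    -- the letter breaking the period
    obtain ⟨a, ha⟩ : ∃ a : Fin 2, a ≠ w (z0 - q) := by
      by_cases h : w (z0 - q) = 0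
      · exact ⟨1, by rw [h]; decide⟩
      · exact ⟨0, fun h' => h h'.symm⟩
    obtain ⟨z, h5, h6, h7, h8⟩ := hB a
    have hcc : ctx w j z = ctx w j z0 := by rw [hctx z h8, hctx z0 h4]
    rw [ctx_eq_iff] at hcc
    refine ⟨z, h5, h6, h8, Finset.mem_union_right _ ?_⟩
    rw [ZP, Finset.mem_filter, Finset.mem_Ico]
    refine ⟨⟨by omega, h6⟩, q, ⟨hq1, hq2, ?_⟩, ?_⟩
    · intro t ht
      have e1 := hcc t (by omega)
      have e2 := hcc (t + q) ht
      have e3 := hq t ht
      have e4 : z - 1 - (t + q) = z - 1 - t - q := by omega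
      have e5 : z0 - 1 - (t + q) = z0 - 1 - t - q := by omega
      rw [e4, e5] at e2
      rw [e1, e2, e3]
    · have e1 := hcc (q - 1) (by omega)
      have e2 : z - 1 - (q - 1) = z - q := by omega
      have e3 : z0 - 1 - (q - 1) = z0 - q := by omega
      rw [e2, e3] at e1
      rw [h7, e1]
      exact ha
  · refine ⟨z0, h1, h2, h4, Finset.mem_union_left _ ?_⟩
    rw [ZN, Finset.mem_filter, Finset.mem_Ico]
    refine ⟨⟨by omega, h2⟩, ?_, hper⟩
    rw [hctx z0 h4]
    exact take_mem_B w n hij hu

/-- Few leaves deep in the tree. -/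
theorem leaves_le {j J : ℕ} (hj : j ≤ J) :
    ∑ i ∈ Finset.Ico J n, (leaf w n i).card ≤
      ((B w n j).card + 1) * (n / (j / 8 + 1) + 1) := by
  classical
  rw [← Finset.card_sigma]
  have hex : ∀ x ∈ (Finset.Ico J n).sigma (leaf w n), ∃ z, x.1 ≤ z ∧ z < n ∧ ctx w x.1 z = x.2 ∧
      z ∈ ZN w n j ∪ ZP w n j := by
    intro x hx
    rw [Finset.mem_sigma, Finset.mem_Ico] at hx
    exact leaf_pos w n (by omega) (Finset.mem_filter.1 hx.2).1
  choose! pos h1 h2 h3 h4 using hex
  have hcard : ((Finset.Ico J n).sigma (leaf w n)).card ≤ (ZN w n j ∪ ZP w n j).card := by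
    apply Finset.card_le_card_of_injOn pos
    · intro x hx
      exact h4 x hx
    · -- injectivity
      have key : ∀ x ∈ (Finset.Ico J n).sigma (leaf w n), ∀ y ∈ (Finset.Ico J n).sigma (leaf w n),
          pos x = pos y → ¬ x.1 < y.1 := by
        intro x hx y hy hxy hlt
        have hx' := Finset.mem_sigma.1 hx
        have hy' := Finset.mem_sigma.1 hy
        have hyB : y.2 ∈ B w n y.1 := (Finset.mem_filter.1 hy'.2).1
        have hchild : ctx w (x.1 + 1) (pos x) ∈ kids w n x.1 x.2 := by
          rw [kids, Finset.mem_filter]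
          constructor
          · have := take_mem_B w n (show x.1 + 1 ≤ y.1 by omega) hyB
            rw [← h3 y hy, take_ctx w (by omega), ← hxy] at this
            exact this
          · rw [take_ctx w (by omega)]
            exact h3 x hx
        have h0 := (Finset.mem_filter.1 hx'.2).2
        rw [Finset.card_eq_zero] at h0
        rw [h0] at hchild
        exact absurd hchild (Finset.notMem_empty _)
      intro x hx y hy hxy
      have hx := Finset.mem_coe.1 hx
      have hy := Finset.mem_coe.1 hy
      have e1 : x.1 = y.1 := by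
        have a1 := key x hx y hy hxy
        have a2 := key y hy x hx hxy.symm
        omega
      have e2 : x.2 = y.2 := by
        rw [← h3 x hx, ← h3 y hy, e1, hxy]
      exact Sigma.ext e1 (heq_of_eq e2)
  refine le_trans hcard (le_trans (Finset.card_union_le _ _) ?_)
  have := ZN_card w n j
  have := ZP_card w n j
  rw [add_mul, one_mul]
  omega

end Pool.Agent.Helper40_Cplx
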