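import Mathlib

set_option autoImplicit false

/-!
The tree of right special factors of a finite binary word. A word of length `n` is given by a
function `w : ℕ → Fin 2`, of which only the values below `n` matter; factors are read backwards.
-/

namespace Pool.Agent.Helper40_Cplx

open Finset

/-- The `j` letters before position `z`, read backwards. -/
def ctx (w : ℕ → Fin 2) (j z : ℕ) : List (Fin 2) := (List.range j).map fun t => w (z - 1 - t)

@[simp] lemma length_ctx (w : ℕ → Fin 2) (j z : ℕ) : (ctx w j z).length = j := by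
  simp [ctx]

lemma ctx_eq_iff (w w' : ℕ → Fin 2) (j z z' : ℕ) :
    ctx w j z = ctx w' j z' ↔ ∀ t, t < j → w (z - 1 - t) = w' (z' - 1 - t) := by
  unfold ctx
  constructor
  · intro h t ht
    have h1 := congrArg (fun l : List (Fin 2) => l[t]?) h
    simp only [List.getElem?_map, List.getElem?_range, ht, Option.map_some] at h1
    exact Option.some_injective _ h1
  · intro h
    apply List.map_congr_left
    intro t ht
    exact h t (List.mem_range.1 ht)

lemma take_ctx (w : ℕ → Fin 2) {i j : ℕ} (h : j ≤ i) (z : ℕ) :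
    (ctx w i z).take j = ctx w j z := by
  unfold ctx
  rw [← List.map_take, List.take_range, Nat.min_eq_left h]

lemma ctx_succ (w : ℕ → Fin 2) (j z : ℕ) : ctx w (j + 1) z = ctx w j z ++ [w (z - 1 - j)] := by
  unfold ctx
  rw [List.range_succ, List.map_append]
  rfl

lemma ctx_cons (w : ℕ → Fin 2) (j z : ℕ) : ctx w (j + 1) (z + 1) = w z :: ctx w j z := by
  unfold ctx
  rw [List.range_succ_eq_map, List.map_cons, List.map_map]
  congr 1
  apply List.map_congr_left
  intro t _
  simp only [Function.comp]
  congr 1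
  omega

variable (w : ℕ → Fin 2) (n : ℕ)

/-- Contexts of length `j` of the positions below `n` with the letter `a`. -/
def U (a : Fin 2) (j : ℕ) : Finset (List (Fin 2)) :=
  ((Finset.Ico j n).filter fun z => w z = a).image (ctx w j)

/-- The right special factors of length `j` (read backwards). -/
def B (j : ℕ) : Finset (List (Fin 2)) := U w n 0 j ∩ U w n 1 j

/-- All the factors of length `j`. -/
def F (j : ℕ) : Finset (List (Fin 2)) := (Finset.Icc j n).image (ctx w j)

/-- Those followed by a letter. -/
def F' (j : ℕ) : Finset (List (Fin 2)) := (Finset.Ico j n).image (ctx w j)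

/-- Whether the last factor of length `j` is new. -/
def e (j : ℕ) : ℕ := if ctx w j n ∈ F' w n j then 0 else 1

lemma mem_U {a : Fin 2} {j : ℕ} {u : List (Fin 2)} :
    u ∈ U w n a j ↔ ∃ z, j ≤ z ∧ z < n ∧ w z = a ∧ ctx w j z = u := by
  simp only [U, Finset.mem_image, Finset.mem_filter, Finset.mem_Ico]
  constructor
  · rintro ⟨z, ⟨⟨h1, h2⟩, h3⟩, h4⟩
    exact ⟨z, h1, h2, h3, h4⟩
  · rintro ⟨z, h1, h2, h3, h4⟩
    exact ⟨z, ⟨⟨h1, h2⟩, h3⟩, h4⟩

lemma mem_B {j : ℕ} {u : List (Fin 2)} :
    u ∈ B w n j ↔ ∀ a : Fin 2, ∃ z, j ≤ z ∧ z < n ∧ w z = a ∧ ctx w j z = u := by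
  rw [B, Finset.mem_inter, mem_U, mem_U]
  constructor
  · rintro ⟨h0, h1⟩ a
    fin_cases a
    · exact h0
    · exact h1
  · intro h
    exact ⟨h 0, h 1⟩

lemma length_of_mem_B {j : ℕ} {u : List (Fin 2)} (h : u ∈ B w n j) : u.length = j := by
  obtain ⟨z, _, _, _, rfl⟩ := (mem_B w n).1 h 0
  simp

lemma F_card (j : ℕ) (hj : j ≤ n) : (F w n j).card = (F' w n j).card + e w n j := by
  have h1 : F w n j = insert (ctx w j n) (F' w n j) := by
    ext u
    simp only [F, F', Finset.mem_image, Finset.mem_insert, Finset.mem_Icc, Finset.mem_Ico]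
    constructor
    · rintro ⟨z, ⟨h1, h2⟩, rfl⟩
      rcases Nat.lt_or_ge z n with h | h
      · exact Or.inr ⟨z, ⟨h1, h⟩, rfl⟩
      · left
        rw [le_antisymm h2 h]
    · rintro (rfl | ⟨z, ⟨h1, h2⟩, rfl⟩)
      · exact ⟨n, ⟨hj, le_rfl⟩, rfl⟩
      · exact ⟨z, ⟨h1, h2.le⟩, rfl⟩
  rw [h1, e]
  split_ifs with h
  · rw [Finset.insert_eq_of_mem h, add_zero]
  · rw [Finset.card_insert_of_notMem h]

lemma F'_card (j : ℕ) : (F w n (j + 1)).card = (F' w n j).card + (B w n j).card := by
  have h1 : F w n (j + 1) = (U w n 0 j).image (List.cons 0) ∪ (U w n 1 j).image (List.cons 1) := by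
    ext u
    simp only [F, Finset.mem_image, Finset.mem_union, Finset.mem_Icc, mem_U]
    constructor
    · rintro ⟨z, ⟨h1, h2⟩, rfl⟩
      obtain ⟨y, rfl⟩ : ∃ y, z = y + 1 := ⟨z - 1, by omega⟩
      rw [ctx_cons]
      have hy : w y = 0 ∨ w y = 1 := by
        have := (w y).2
        rcases Nat.lt_or_ge (w y).1 1 with h | h
        · left
          ext
          simp
          omega
        · right
          ext
          simp
          omega
      rcases hy with h | h
      · exact Or.inl ⟨ctx w j y, ⟨y, by omega, by omega, h, rfl⟩, by rw [h]⟩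
      · exact Or.inr ⟨ctx w j y, ⟨y, by omega, by omega, h, rfl⟩, by rw [h]⟩
    · rintro (⟨_, ⟨y, h1, h2, h3, rfl⟩, rfl⟩ | ⟨_, ⟨y, h1, h2, h3, rfl⟩, rfl⟩)
      · exact ⟨y + 1, ⟨by omega, by omega⟩, by rw [ctx_cons, h3]⟩
      · exact ⟨y + 1, ⟨by omega, by omega⟩, by rw [ctx_cons, h3]⟩
  have h2 : Disjoint ((U w n 0 j).image (List.cons 0)) ((U w n 1 j).image (List.cons 1)) := by
    rw [Finset.disjoint_left]
    intro u hu hu'
    rw [Finset.mem_image] at hu hu'
    obtain ⟨a, _, rfl⟩ := hu
    obtain ⟨b, _, hb⟩ := hu'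
    have := (List.cons_eq_cons.1 hb).1
    simp at this
  have h3 : F' w n j = U w n 0 j ∪ U w n 1 j := by
    ext u
    simp only [F', Finset.mem_image, Finset.mem_union, Finset.mem_Ico, mem_U]
    constructor
    · rintro ⟨y, ⟨h1, h2⟩, rfl⟩
      have hy : w y = 0 ∨ w y = 1 := by
        have := (w y).2
        rcases Nat.lt_or_ge (w y).1 1 with h | h
        · left
          ext
          simp
          omega
        · right
          ext
          simp
          omega
      rcases hy with h | h
      · exact Or.inl ⟨y, h1, h2, h, rfl⟩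
      · exact Or.inr ⟨y, h1, h2, h, rfl⟩
    · rintro (⟨y, h1, h2, h3, rfl⟩ | ⟨y, h1, h2, h3, rfl⟩)
      · exact ⟨y, ⟨h1, h2⟩, rfl⟩
      · exact ⟨y, ⟨h1, h2⟩, rfl⟩
  rw [h1, Finset.card_union_of_disjoint h2,
    Finset.card_image_of_injective _ List.cons_injective,
    Finset.card_image_of_injective _ List.cons_injective, h3, B, Finset.card_union_add_card_inter]

/-- The recursion for the factor complexity. -/
lemma F_succ (j : ℕ) (hj : j ≤ n) :
    (F w n (j + 1)).card + e w n j = (F w n j).card + (B w n j).card := by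
  rw [F_card w n j hj, F'_card]
  ring

lemma F_zero : (F w n 0).card = 1 := by
  have : F w n 0 = {[]} := by
    ext u
    simp only [F, Finset.mem_image, Finset.mem_Icc, Finset.mem_singleton]
    constructor
    · rintro ⟨z, _, rfl⟩
      rfl
    · rintro rfl
      exact ⟨0, ⟨le_rfl, Nat.zero_le _⟩, rfl⟩
  rw [this, Finset.card_singleton]

lemma F_last : (F w n n).card = 1 := by
  have : F w n n = {ctx w n n} := by
    ext u
    simp only [F, Finset.mem_image, Finset.mem_Icc, Finset.mem_singleton]
    constructor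
    · rintro ⟨z, ⟨h1, h2⟩, rfl⟩
      rw [le_antisymm h2 h1]
    · rintro rfl
      exact ⟨n, ⟨le_rfl, le_rfl⟩, rfl⟩
  rw [this, Finset.card_singleton]

lemma F_sum (k : ℕ) (hk : k ≤ n) :
    (F w n k).card + ∑ j ∈ Finset.range k, e w n j =
      1 + ∑ j ∈ Finset.range k, (B w n j).card := by
  induction k with
  | zero => simp [F_zero]
  | succ k ih =>
    rw [Finset.sum_range_succ, Finset.sum_range_succ]
    have h1 := ih (by omega)
    have h2 := F_succ w n k (by omega)
    omega

lemma e_le_one (j : ℕ) : e w n j ≤ 1 := by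
  unfold e
  split_ifs <;> omega

lemma sum_B_le : ∑ j ∈ Finset.range n, (B w n j).card ≤ n := by
  have h1 := F_sum w n n le_rfl
  rw [F_last] at h1
  have h2 : ∑ j ∈ Finset.range n, e w n j ≤ n := by
    calc ∑ j ∈ Finset.range n, e w n j ≤ ∑ _j ∈ Finset.range n, 1 :=
          Finset.sum_le_sum fun j _ => e_le_one w n j
      _ = n := by simp
  omega

lemma e_mono {j : ℕ} (h : e w n j = 1) : e w n (j + 1) = 1 := by
  unfold e at h ⊢
  have h1 : ctx w j n ∉ F' w n j := by
    intro h2
    rw [if_pos h2] at h
    omega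
  rw [if_neg]
  intro h2
  apply h1
  simp only [F', Finset.mem_image, Finset.mem_Ico] at h2 ⊢
  obtain ⟨z, ⟨h3, h4⟩, h5⟩ := h2
  refine ⟨z, ⟨by omega, h4⟩, ?_⟩
  rw [← take_ctx w (Nat.le_succ j) z, ← take_ctx w (Nat.le_succ j) n, h5]

lemma e_mono' {j k : ℕ} (hjk : j ≤ k) (h : e w n j = 1) : e w n k = 1 := by
  induction k, hjk using Nat.le_induction with
  | base => exact h
  | succ k _ ih => exact e_mono w n ih

/-- The number of `j < n` with `e j = 0`. -/
def kap : ℕ := ((Finset.range n).filter fun j => e w n j = 0).card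

lemma kap_le : kap w n ≤ n := by
  unfold kap
  exact le_trans (Finset.card_filter_le _ _) (by simp)

lemma e_eq (j : ℕ) (hj : j < n) : e w n j = if j < kap w n then 0 else 1 := by
  have h01 : ∀ i, e w n i = 0 ∨ e w n i = 1 := by
    intro i
    have := e_le_one w n i
    omega
  rcases h01 j with h | h
  · -- all smaller ones are zero too
    have h1 : Finset.range (j + 1) ⊆ (Finset.range n).filter fun i => e w n i = 0 := by
      intro i hi
      rw [Finset.mem_range] at hi
      rw [Finset.mem_filter, Finset.mem_range]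
      refine ⟨by omega, ?_⟩
      rcases h01 i with h2 | h2
      · exact h2
      · have := e_mono' w n (show i ≤ j by omega) h2
        omega
    have h2 := Finset.card_le_card h1
    rw [Finset.card_range] at h2
    rw [if_pos (by unfold kap; omega), h]
  · have h1 : ((Finset.range n).filter fun i => e w n i = 0) ⊆ Finset.range j := by
      intro i hi
      rw [Finset.mem_filter] at hi
      rw [Finset.mem_range]
      by_contra hij
      have := e_mono' w n (show j ≤ i by omega) h
      omega
    have h2 := Finset.card_le_card h1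
    rw [Finset.card_range] at h2
    rw [if_neg (by unfold kap; omega), h]

lemma B_last : (B w n n).card = 0 := by
  rw [Finset.card_eq_zero, Finset.eq_empty_iff_forall_notMem]
  intro u hu
  obtain ⟨z, h1, h2, _⟩ := (mem_B w n).1 hu 0
  omega

/-- Closure under truncation. -/
lemma take_mem_B {i j : ℕ} (h : j ≤ i) {u : List (Fin 2)} (hu : u ∈ B w n i) :
    u.take j ∈ B w n j := by
  rw [mem_B] at hu ⊢
  intro a
  obtain ⟨z, h1, h2, h3, h4⟩ := hu a
  exact ⟨z, by omega, h2, h3, by rw [← h4, take_ctx w h]⟩

/-- The children of `u` at level `j + 1`. -/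
def kids (j : ℕ) (u : List (Fin 2)) : Finset (List (Fin 2)) :=
  (B w n (j + 1)).filter fun v => v.take j = u

/-- The leaves at level `j`. -/
def leaf (j : ℕ) : Finset (List (Fin 2)) := (B w n j).filter fun u => (kids w n j u).card = 0

/-- The branching nodes at level `j`. -/
def br (j : ℕ) : Finset (List (Fin 2)) := (B w n j).filter fun u => (kids w n j u).card = 2

lemma kids_card_le (j : ℕ) (u : List (Fin 2)) : (kids w n j u).card ≤ 2 := by
  have h1 : kids w n j u ⊆ {u ++ [0], u ++ [1]} := by
    intro v hv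
    rw [kids, Finset.mem_filter] at hv
    have hlen := length_of_mem_B w n hv.1
    obtain ⟨z, _, _, _, h4⟩ := (mem_B w n).1 hv.1 0
    have h5 : v = u ++ [w (z - 1 - j)] := by
      rw [← hv.2, ← h4, take_ctx w (Nat.le_succ j), ctx_succ]
    rw [h5, Finset.mem_insert, Finset.mem_singleton]
    have := (w (z - 1 - j)).2
    rcases Nat.lt_or_ge (w (z - 1 - j)).1 1 with h | h
    · left
      congr 2
      ext
      simp
      omega
    · right
      congr 2
      ext
      simp
      omega
  exact le_trans (Finset.card_le_card h1) (Finset.card_le_two)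

lemma level_step (j : ℕ) :
    (B w n (j + 1)).card + (leaf w n j).card = (B w n j).card + (br w n j).card := by
  have h1 : (B w n (j + 1)).card = ∑ u ∈ B w n j, (kids w n j u).card := by
    apply Finset.card_eq_sum_card_fiberwise
    intro v hv
    exact take_mem_B w n (Nat.le_succ j) hv
  have h2 : ∀ u ∈ B w n j, (kids w n j u).card + (if (kids w n j u).card = 0 then 1 else 0) =
      1 + (if (kids w n j u).card = 2 then 1 else 0) := by
    intro u hu
    have := kids_card_le w n j u
    split_ifs <;> omega
  have h3 := Finset.sum_congr rfl h2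
  rw [Finset.sum_add_distrib, Finset.sum_add_distrib, ← h1, ← Finset.card_filter,
    ← Finset.card_filter, Finset.sum_const, smul_eq_mul, mul_one] at h3
  exact h3

lemma sum_br_le {J : ℕ} (hJ : J ≤ n) : ∑ j ∈ Finset.Ico J n, (br w n j).card ≤
    ∑ j ∈ Finset.Ico J n, (leaf w n j).card := by
  have key : ∀ k, J ≤ k → (B w n k).card + ∑ j ∈ Finset.Ico J k, (leaf w n j).card =
      (B w n J).card + ∑ j ∈ Finset.Ico J k, (br w n j).card := by
    intro k hk
    induction k, hk using Nat.le_induction with
    | base => simp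
    | succ k hk ih =>
      rw [Finset.sum_Ico_succ_top hk, Finset.sum_Ico_succ_top hk]
      have := level_step w n k
      omega
  have h1 := key n hJ
  rw [B_last] at h1
  omega

/-- The number of changes of the number of right special factors beyond level `J`. -/
lemma changes_le {J : ℕ} (hJ : J ≤ n) :
    ((Finset.Ico J n).filter fun j => (B w n (j + 1)).card ≠ (B w n j).card).card ≤
      2 * ∑ j ∈ Finset.Ico J n, (leaf w n j).card := by
  rw [Finset.card_filter]
  have h1 : ∑ j ∈ Finset.Ico J n, (if (B w n (j + 1)).card ≠ (B w n j).card then 1 else 0) ≤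
      ∑ j ∈ Finset.Ico J n, ((br w n j).card + (leaf w n j).card) := by
    refine Finset.sum_le_sum fun j _ => ?_
    have := level_step w n j
    split_ifs with h
    · omega
    · omega
  refine le_trans h1 ?_
  rw [Finset.sum_add_distrib]
  have := sum_br_le w n hJ
  omega

end Pool.Agent.Helper40_Cplx
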